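import Pool.Agent.TMX.Stmts

/-!
# Squad TMX, row K1: prefix balls
-/

set_option autoImplicit false

namespace Pool.Agent.TMX.H85

open Finset
open Pool.Agent.Helper51_Max (I IsMax card_I card_I_pos)
open Pool.Agent.Helper37_EM (card_pos')

/-- one ball of `m` elements which contains `k` -/
theorem ball (s : Finset ℕ) (g : ℕ → ℝ) (k N : ℕ) (μ M0 : ℝ) (hk : k ∈ s)
    (hs : ∀ i ∈ s, μ ≤ g i) (hc : s.card ≤ N + 1) (hle : ∑ i ∈ s, g i ≤ M0 * (s.card : ℝ)) :
    ((N : ℝ) + 1) * (g k - M0) ≤ N * (g k - μ) := by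
  have h1 : g k - μ ≤ ∑ i ∈ s, (g i - μ) :=
    Finset.single_le_sum (f := fun i => g i - μ) (fun i hi => sub_nonneg.mpr (hs i hi)) hk
  rw [Finset.sum_sub_distrib, Finset.sum_const, nsmul_eq_mul] at h1
  have h2 : (s.card : ℝ) ≤ (N : ℝ) + 1 := by exact_mod_cast hc
  have h3 : 0 ≤ g k - μ := sub_nonneg.mpr (hs k hk)
  have h4 : (0 : ℝ) < (s.card : ℝ) := by exact_mod_cast Finset.card_pos.mpr ⟨k, hk⟩
  have h5 : g k - μ ≤ (M0 - μ) * (s.card : ℝ) := by linarith
  have h6 : 0 ≤ M0 - μ := by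
    by_contra h
    push Not at h
    have := mul_neg_of_neg_of_pos h h4
    linarith
  have h7 : (M0 - μ) * (s.card : ℝ) ≤ (M0 - μ) * ((N : ℝ) + 1) :=
    mul_le_mul_of_nonneg_left h2 h6
  nlinarith

theorem k1 : K1 := by
  intro N g M h
  refine ⟨?_, ?_, ?_, ?_⟩
  · intro k μ hk hμ
    have hI : I N 0 k = Icc 0 k := by
      unfold I
      congr 1 <;> omega
    refine ball (I N 0 k) g k N μ (M 0) ?_ ?_ ?_ (h.le 0 (Nat.zero_le _) k)
    · rw [hI, mem_Icc]
      omega
    · intro i hi
      rw [hI, mem_Icc] at hi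
      exact hμ i hi.2
    · rw [card_I]
      omega
  · intro k μ hk hμ
    have hI : I N N (N - k) = Icc k N := by
      unfold I
      congr 1 <;> omega
    refine ball (I N N (N - k)) g k N μ (M N) ?_ ?_ ?_ (h.le N le_rfl (N - k))
    · rw [hI, mem_Icc]
      omega
    · intro i hi
      rw [hI, mem_Icc] at hi
      exact hμ i hi.1 hi.2
    · rw [card_I]
      omega
  · intro v hv
    have hI : I N v N = range (N + 1) := by
      ext i
      unfold I
      rw [mem_Icc, mem_range]
      omega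
    have h1 := h.le v hv N
    rw [hI, card_range] at h1
    push_cast at h1
    exact h1
  · intro v C hv hC
    obtain ⟨r, hr⟩ := h.attained v hv
    have h1 : ∑ i ∈ I N v r, g i ≤ ((I N v r).card : ℝ) * C := by
      rw [← nsmul_eq_mul]
      apply Finset.sum_le_card_nsmul
      intro i hi
      apply hC
      unfold I at hi
      rw [mem_Icc] at hi
      omega
    rw [← hr, mul_comm (M v)] at h1
    exact le_of_mul_le_mul_left h1 (card_pos' r hv)

end Pool.Agent.TMX.H85

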